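import Mathlib

set_option autoImplicit false

/-!
# Wilson primes of different orders
-/

namespace Pool.Agent.G476.Wil

open Nat Filter Finset

/-- `m (m + 1) ⋯ (m + k - 1)`. -/
def P (m : ℕ) : ℕ → ℕ
  | 0 => 1
  | k + 1 => P m k * (m + k)

/-- The sum of the products of all but one of the numbers `m, …, m + k - 1`. -/
def E (m : ℕ) : ℕ → ℕ
  | 0 => 0
  | k + 1 => E m k * (m + k) + P m k

theorem P_pos {m : ℕ} (hm : 1 ≤ m) (k : ℕ) : 0 < P m k := by
  induction k with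
  | zero => exact Nat.one_pos
  | succ k ih => exact Nat.mul_pos ih (by omega)

theorem E_pos {m : ℕ} (hm : 1 ≤ m) {k : ℕ} (hk : 1 ≤ k) : 0 < E m k := by
  obtain ⟨k, rfl⟩ : ∃ j, k = j + 1 := ⟨k - 1, by omega⟩
  have := P_pos hm k
  show 0 < E m k * (m + k) + P m k
  omega

theorem P_le (m k : ℕ) : P m k ≤ (m + k) ^ k := by
  induction k with
  | zero => exact le_rfl
  | succ k ih =>
    show P m k * (m + k) ≤ _
    calc P m k * (m + k) ≤ (m + k) ^ k * (m + k) := Nat.mul_le_mul_right _ ih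
      _ = (m + k) ^ (k + 1) := (pow_succ _ _).symm
      _ ≤ (m + (k + 1)) ^ (k + 1) := Nat.pow_le_pow_left (by omega) _

theorem E_lt {m : ℕ} (hm : 1 ≤ m) (k : ℕ) : E m k < (m + k) ^ k := by
  induction k with
  | zero => exact Nat.one_pos
  | succ k ih =>
    show E m k * (m + k) + P m k < _
    have h1 : (m + k) ^ k * (m + k + 1) ≤ (m + (k + 1)) ^ (k + 1) := by
      rw [pow_succ (m + (k + 1)), show m + k + 1 = m + (k + 1) by ring]
      exact Nat.mul_le_mul_right _ (Nat.pow_le_pow_left (by omega) _)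
    have h2 : E m k * (m + k) < (m + k) ^ k * (m + k) := Nat.mul_lt_mul_of_pos_right ih (by omega)
    have h3 := P_le m k
    have h4 : (m + k) ^ k * (m + k + 1) = (m + k) ^ k * (m + k) + (m + k) ^ k := by ring
    omega

theorem fact_up {m : ℕ} (hm : 1 ≤ m) (k : ℕ) : (m - 1)! * P m k = (m + k - 1)! := by
  induction k with
  | zero => simp [P]
  | succ k ih =>
    show (m - 1)! * (P m k * (m + k)) = _
    rw [← mul_assoc, ih, mul_comm, show m + (k + 1) - 1 = (m + k - 1) + 1 by omega,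
      Nat.factorial_succ, show m + k - 1 + 1 = m + k by omega]

/-- `(p - m) ⋯ (p - m - k + 1)` modulo `p ^ 2`. -/
theorem fact_down (p m : ℕ) (k : ℕ) (h : m + k ≤ p) :
    ∃ c : ℤ, ((p - m)! : ℤ) =
      ((p - (m + k))! : ℤ) * ((-1) ^ k * ((P m k : ℤ) - p * E m k) + (p : ℤ) ^ 2 * c) := by
  induction k with
  | zero => exact ⟨0, by simp [P, E]⟩
  | succ k ih =>
    obtain ⟨c, hc⟩ := ih (by omega)
    refine ⟨c * (p - (m + k)) + (-1) ^ k * -(E m k : ℤ), ?_⟩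
    have h1 : p - (m + k) = (p - (m + (k + 1))) + 1 := by omega
    have h2 : ((p - (m + k))! : ℤ) = ((p : ℤ) - (m + k)) * ((p - (m + (k + 1)))! : ℤ) := by
      rw [h1, Nat.factorial_succ]
      push_cast [Nat.cast_sub (show m + (k + 1) ≤ p from h)]
      ring
    rw [hc, h2]
    show _ = _ * ((-1) ^ (k + 1) * (((P m k * (m + k) : ℕ) : ℤ) -
      p * ((E m k * (m + k) + P m k : ℕ) : ℤ)) + (p : ℤ) ^ 2 * _)
    push_cast
    rw [pow_succ]
    ring

/-- `p` is a Wilson prime of order `n`. -/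
def IsWilson (n p : ℕ) : Prop :=
  p.Prime ∧ n ≤ p ∧ (p : ℤ) ^ 2 ∣ ((n - 1)! : ℤ) * ((p - n)! : ℤ) - (-1) ^ n

theorem dvd_of_two {m k p : ℕ} (hm : 1 ≤ m) (h1 : IsWilson m p) (h2 : IsWilson (m + k) p) :
    p ∣ E m k := by
  obtain ⟨hp, -, c1, hc1⟩ := h1
  obtain ⟨-, hle, c2, hc2⟩ := h2
  obtain ⟨c, hc⟩ := fact_down p m k hle
  have h3 := fact_up hm k
  have h4 : (p : ℤ) ^ 2 ∣ (p : ℤ) * E m k := by
    -- multiply the first congruence by `P m k`
    have e1 : (((m + k - 1)! : ℕ) : ℤ) = ((m - 1)! : ℤ) * P m k := by exact_mod_cast h3.symm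
    rw [e1] at hc2
    have e2 : ((m - 1)! : ℤ) * ((p - m)! : ℤ) = (-1) ^ m + (p : ℤ) ^ 2 * c1 := by linarith
    have e3 : ((m - 1)! : ℤ) * P m k * ((p - (m + k))! : ℤ) = (-1) ^ (m + k) + (p : ℤ) ^ 2 * c2 := by
      linarith
    -- `P * e2`
    have e4 : (P m k : ℤ) * ((-1) ^ m + (p : ℤ) ^ 2 * c1) =
        ((-1) ^ (m + k) + (p : ℤ) ^ 2 * c2) *
          ((-1) ^ k * ((P m k : ℤ) - p * E m k) + (p : ℤ) ^ 2 * c) := by
      rw [← e2, ← e3, hc]
      ring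
    have e5 : ((-1 : ℤ) ^ k) * (-1) ^ k = 1 := by
      rw [← mul_pow]; norm_num
    have e6 : ((-1 : ℤ) ^ m) * (-1) ^ m = 1 := by
      rw [← mul_pow]; norm_num
    have e7 : (p : ℤ) * E m k = (p : ℤ) ^ 2 * ((-1) ^ m * (-(P m k : ℤ) * c1 +
        (-1) ^ (m + k) * c + c2 * ((-1) ^ k * ((P m k : ℤ) - p * E m k) + (p : ℤ) ^ 2 * c))) := by
      rw [pow_add] at e4 ⊢
      linear_combination ((-1 : ℤ) ^ m) * e4 +
        ((P m k : ℤ) * ((-1) ^ m * (-1) ^ m) - (p : ℤ) * E m k) * e5 -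
        ((p : ℤ) * E m k) * ((-1) ^ k * (-1) ^ k) * e6
    exact ⟨_, e7⟩
  rw [sq] at h4
  have hp0 : (p : ℤ) ≠ 0 := by exact_mod_cast hp.ne_zero
  have h5 : (p : ℤ) ∣ E m k := (mul_dvd_mul_iff_left hp0).1 h4
  exact_mod_cast h5

end Pool.Agent.G476.Wil
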