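import Mathlib
import Pool.Agent.G476.Wil.Core

set_option autoImplicit false

/-!
# A prime is a Wilson prime of few orders
-/

namespace Pool.Agent.G476.Wil

open Polynomial

/-- The polynomial `X (X + 1) ⋯ (X + k - 1)`. -/
noncomputable def poly (p : ℕ) : ℕ → (ZMod p)[X]
  | 0 => 1
  | k + 1 => poly p k * (X + C (k : ZMod p))

theorem poly_monic (p k : ℕ) : (poly p k).Monic := by
  induction k with
  | zero => exact monic_one
  | succ k ih => exact ih.mul (monic_X_add_C _)

theorem poly_natDegree (p : ℕ) [Fact p.Prime] (k : ℕ) : (poly p k).natDegree = k := by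
  induction k with
  | zero => exact natDegree_one
  | succ k ih =>
    show (poly p k * (X + C (k : ZMod p))).natDegree = k + 1
    rw [(poly_monic p k).natDegree_mul (monic_X_add_C _), ih, natDegree_X_add_C]

theorem eval_poly (p m k : ℕ) : eval (m : ZMod p) (poly p k) = (P m k : ZMod p) := by
  induction k with
  | zero => simp [poly, P]
  | succ k ih =>
    show eval (m : ZMod p) (poly p k * (X + C (k : ZMod p))) = ((P m k * (m + k) : ℕ) : ZMod p)
    rw [eval_mul, ih]
    simp

theorem eval_derivative (p m k : ℕ) :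
    eval (m : ZMod p) (derivative (poly p k)) = (E m k : ZMod p) := by
  induction k with
  | zero => simp [poly, E]
  | succ k ih =>
    show eval (m : ZMod p) (derivative (poly p k * (X + C (k : ZMod p)))) =
      ((E m k * (m + k) + P m k : ℕ) : ZMod p)
    rw [derivative_mul, eval_add, eval_mul, eval_mul, ih, eval_poly]
    simp

theorem derivative_ne_zero (p : ℕ) [Fact p.Prime] {k : ℕ} (hk : 1 ≤ k) (hkp : k < p) :
    derivative (poly p k) ≠ 0 := by
  intro h
  have h1 : (derivative (poly p k)).coeff (k - 1) = 0 := by rw [h, coeff_zero]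
  rw [coeff_derivative, show k - 1 + 1 = k by omega] at h1
  have h2 : (poly p k).coeff k = 1 := by
    have := poly_monic p k
    unfold Monic leadingCoeff at this
    rwa [poly_natDegree] at this
  rw [h2, one_mul] at h1
  have h3 : ((k : ℕ) : ZMod p) = 0 := by
    have : ((k - 1 : ℕ) : ZMod p) + 1 = ((k - 1 + 1 : ℕ) : ZMod p) := by push_cast; ring
    rw [this, show k - 1 + 1 = k by omega] at h1
    exact h1
  rw [ZMod.natCast_eq_zero_iff] at h3
  exact absurd (Nat.le_of_dvd (by omega) h3) (by omega)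

theorem card_zeros (p : ℕ) [Fact p.Prime] {a N k : ℕ} (hN : N ≤ p) (hk : 1 ≤ k) (hkp : k < p) :
    ((Finset.Ico a (a + N)).filter fun m => p ∣ E m k).card ≤ k - 1 := by
  classical
  have h0 := derivative_ne_zero p hk hkp
  have h1 : ((Finset.Ico a (a + N)).filter fun m => p ∣ E m k).card ≤
      (derivative (poly p k)).roots.toFinset.card := by
    refine Finset.card_le_card_of_injOn (fun m => (m : ZMod p)) ?_ ?_
    · intro m hm
      have hm' := Finset.mem_filter.1 hm
      rw [Finset.mem_coe, Multiset.mem_toFinset, mem_roots h0, IsRoot.def, eval_derivative,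
        ZMod.natCast_eq_zero_iff]
      exact hm'.2
    · intro m hm m' hm' h
      have e1 := Finset.mem_Ico.1 (Finset.mem_filter.1 hm).1
      have e2 := Finset.mem_Ico.1 (Finset.mem_filter.1 hm').1
      have h' : (m : ZMod p) = (m' : ZMod p) := h
      rw [ZMod.natCast_eq_natCast_iff] at h'
      rcases le_total m m' with hle | hle
      · have h3 : p ∣ m' - m := (Nat.modEq_iff_dvd' hle).1 h'
        have h4 := Nat.eq_zero_of_dvd_of_lt h3 (by omega)
        omega
      · have h3 : p ∣ m - m' := (Nat.modEq_iff_dvd' hle).1 h'.symm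
        have h4 := Nat.eq_zero_of_dvd_of_lt h3 (by omega)
        omega
  refine h1.trans ((Multiset.toFinset_card_le _).trans ((card_roots' _).trans ?_))
  have := natDegree_derivative_le (poly p k)
  rwa [poly_natDegree] at this

/-- The gap argument. -/
theorem card_le_gap (p : ℕ) [Fact p.Prime] {a N K : ℕ} (hN : N ≤ p) (hK : K < p) (A : Finset ℕ)
    (hA : A ⊆ Finset.Ico a (a + N))
    (h : ∀ m ∈ A, ∀ k, 1 ≤ k → m + k ∈ A → p ∣ E m k) :
    A.card ≤ K * K / 2 + (N / (K + 1) + 1) := by
  classical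
  set B := A.filter fun m => ∀ k ∈ Finset.Icc 1 K, m + k ∉ A with hB
  have h1 : B.card ≤ N / (K + 1) + 1 := by
    rw [← Finset.card_range (N / (K + 1) + 1)]
    refine Finset.card_le_card_of_injOn (fun m => (m - a) / (K + 1)) ?_ ?_
    · intro m hm
      have e1 := Finset.mem_Ico.1 (hA (Finset.mem_filter.1 hm).1)
      rw [Finset.mem_coe, Finset.mem_range, Nat.lt_succ_iff]
      exact Nat.div_le_div_right (by omega)
    · intro m hm m' hm' hmm
      have e1 := Finset.mem_Ico.1 (hA (Finset.mem_filter.1 hm).1)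
      have e2 := Finset.mem_Ico.1 (hA (Finset.mem_filter.1 hm').1)
      simp only at hmm
      by_contra hne
      rcases lt_or_gt_of_ne hne with hlt | hlt
      · have e3 : m' - m ≤ K := by
          have q1 := Nat.div_add_mod (m - a) (K + 1)
          have q2 := Nat.div_add_mod (m' - a) (K + 1)
          have q3 : (m' - a) % (K + 1) < K + 1 := Nat.mod_lt _ (by omega)
          rw [hmm] at q1
          generalize (K + 1) * ((m' - a) / (K + 1)) = Q at q1 q2
          omega
        refine (Finset.mem_filter.1 hm).2 (m' - m) (Finset.mem_Icc.2 ⟨by omega, e3⟩) ?_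
        rw [show m + (m' - m) = m' by omega]
        exact (Finset.mem_filter.1 hm').1
      · have e3 : m - m' ≤ K := by
          have q1 := Nat.div_add_mod (m - a) (K + 1)
          have q2 := Nat.div_add_mod (m' - a) (K + 1)
          have q3 : (m - a) % (K + 1) < K + 1 := Nat.mod_lt _ (by omega)
          rw [hmm] at q1
          generalize (K + 1) * ((m' - a) / (K + 1)) = Q at q1 q2
          omega
        refine (Finset.mem_filter.1 hm').2 (m - m') (Finset.mem_Icc.2 ⟨by omega, e3⟩) ?_
        rw [show m' + (m - m') = m by omega]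
        exact (Finset.mem_filter.1 hm).1
  have h2 : (A \ B).card ≤ K * K / 2 := by
    have hsub : A \ B ⊆ (Finset.Icc 1 K).biUnion fun k =>
        (Finset.Ico a (a + N)).filter fun m => p ∣ E m k := by
      intro m hm
      rw [Finset.mem_sdiff] at hm
      have hmB : ¬ ∀ k ∈ Finset.Icc 1 K, m + k ∉ A := fun h' =>
        hm.2 (Finset.mem_filter.2 ⟨hm.1, h'⟩)
      push Not at hmB
      obtain ⟨k, hk, hkA⟩ := hmB
      exact Finset.mem_biUnion.2 ⟨k, hk, Finset.mem_filter.2
        ⟨hA hm.1, h m hm.1 k (Finset.mem_Icc.1 hk).1 hkA⟩⟩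
    refine (Finset.card_le_card hsub).trans (Finset.card_biUnion_le.trans ?_)
    have h3 : ∑ k ∈ Finset.Icc 1 K, ((Finset.Ico a (a + N)).filter fun m => p ∣ E m k).card ≤
        ∑ k ∈ Finset.Icc 1 K, (k - 1) := Finset.sum_le_sum fun k hk =>
      card_zeros p hN (Finset.mem_Icc.1 hk).1 (lt_of_le_of_lt (Finset.mem_Icc.1 hk).2 hK)
    refine h3.trans ?_
    have h4 : ∀ K : ℕ, 2 * ∑ k ∈ Finset.Icc 1 K, (k - 1) ≤ K * K := by
      intro K
      induction K with
      | zero => simp
      | succ K ih =>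
        rw [Finset.sum_Icc_succ_top (by omega)]
        simp only [Nat.add_sub_cancel]
        nlinarith
    have h5 := h4 K
    omega
  have h6 : A.card ≤ (A \ B).card + B.card := Finset.card_le_card_sdiff_add_card
  omega

/-- At most `3 N ^ (2 / 3)` of `N ≤ p` consecutive orders. -/
theorem card_le_pow (p : ℕ) [Fact p.Prime] {a N : ℕ} (hN : N ≤ p) (A : Finset ℕ)
    (hA : A ⊆ Finset.Ico a (a + N))
    (h : ∀ m ∈ A, ∀ k, 1 ≤ k → m + k ∈ A → p ∣ E m k) :
    (A.card : ℝ) ≤ 3 * (N : ℝ) ^ ((2 : ℝ) / 3) := by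
  have hc : A.card ≤ N := by
    have := Finset.card_le_card hA
    rwa [Nat.card_Ico, Nat.add_sub_cancel_left] at this
  set x : ℝ := (N : ℝ) ^ ((1 : ℝ) / 3) with hx
  have hx0 : 0 ≤ x := by positivity
  have hx3 : x ^ 3 = N := by
    rw [hx, ← Real.rpow_natCast, ← Real.rpow_mul (Nat.cast_nonneg _)]
    norm_num
  have hx2 : (N : ℝ) ^ ((2 : ℝ) / 3) = x ^ 2 := by
    rw [hx, ← Real.rpow_natCast, ← Real.rpow_mul (Nat.cast_nonneg _)]
    norm_num
  rw [hx2]
  have hcR : (A.card : ℝ) ≤ x ^ 3 := by
    rw [hx3]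
    exact_mod_cast hc
  by_cases h3 : x ≤ 3
  · nlinarith [sq_nonneg x]
  · rw [not_le] at h3
    set K : ℕ := ⌈x⌉₊ with hK
    have k1 : x ≤ K := Nat.le_ceil x
    have k2 : (K : ℝ) < x + 1 := Nat.ceil_lt_add_one hx0
    have k3 : K < p := by
      have e1 : (K : ℝ) < N := by
        rw [← hx3]
        nlinarith [sq_nonneg (x - 3)]
      have e2 : K < N := by exact_mod_cast e1
      omega
    have h4 := card_le_gap p hN k3 A hA h
    have h5 : (A.card : ℝ) ≤ (K : ℝ) * K / 2 + (N / (K + 1) + 1) := by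
      have e1 : ((K * K / 2 : ℕ) : ℝ) ≤ (K : ℝ) * K / 2 := by
        refine (Nat.cast_div_le).trans ?_
        push_cast
        exact le_rfl
      have e2 : ((N / (K + 1) : ℕ) : ℝ) ≤ (N : ℝ) / (K + 1) := by
        refine (Nat.cast_div_le).trans ?_
        push_cast
        exact le_rfl
      have e3 : (A.card : ℝ) ≤ ((K * K / 2 : ℕ) : ℝ) + (((N / (K + 1) : ℕ) : ℝ) + 1) := by
        exact_mod_cast h4
      linarith
    have h6 : (N : ℝ) / (K + 1) ≤ x ^ 2 := by
      rw [div_le_iff₀ (by positivity), ← hx3]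
      nlinarith [sq_nonneg x]
    have h7 : (K : ℝ) * K ≤ (x + 1) ^ 2 := by nlinarith [Nat.cast_nonneg (α := ℝ) K]
    nlinarith

end Pool.Agent.G476.Wil
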